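import Mathlib
import Pool.Agent.W666.DN.Final3

/-!
# Dobrowolski's theorem with the discriminant defect in place of the degree

Mahler: `|disc f| ≤ d ^ d * M(f) ^ (2 d - 2)` for `f` of degree `d`.  Here: if `f` is irreducible,
`M(f) > 1` and `|disc f| ≥ (δ d) ^ d` with `0 < δ ≤ 1`, then `M(f)` is bounded away from `1` in terms
of `δ` only: `M(f) ≥ 1 + c (log log (16 / δ) / log (16 / δ)) ^ 3`.
-/

set_option autoImplicit false

open Polynomial

namespace Pool.Agent.Results.MP_7ab245_nt.DiscriminantLehmer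

theorem result : ∃ c : ℝ, 0 < c ∧ ∀ (f : ℤ[X]) (δ : ℝ),
    Irreducible f → 1 < (f.map (Int.castRingHom ℂ)).mahlerMeasure → 0 < δ → δ ≤ 1 →
    (δ * f.natDegree) ^ f.natDegree ≤ |(f.discr : ℝ)| →
    1 + c * (Real.log (Real.log (16 / δ)) / Real.log (16 / δ)) ^ 3 ≤
      (f.map (Int.castRingHom ℂ)).mahlerMeasure :=
  Pool.Agent.W666.DN.final3

end Pool.Agent.Results.MP_7ab245_nt.DiscriminantLehmer
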