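import Pool.Agent.W242.IM.Incl

/-!
# Lehmer's problem for Hermitian matrices with a chain of integral principal submatrices

For a Hermitian matrix `A` of size `n` let `M(A)` be the Mahler measure of `z ^ n χ_A(z + 1/z)`.

For every `k` there is `μ > 1` such that `M(A) = 1` or `M(A) ≥ μ` for every Hermitian matrix `A` (of
any size, with arbitrary complex entries) that has a chain of principal submatrices, from the empty
matrix to `A`, each obtained from the preceding one by adding at most `k` rows and columns, all with
integral characteristic polynomials.  This contains all integer symmetric matrices (`k = 1`).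

The class contains the norms (products of the conjugates) of the characteristic polynomials of all
square matrices over the rings of integers of number fields of degree `k`, all of whose conjugates
are Hermitian (so the field may be totally real or a CM field).

Method.  Let `A'` be the first noncyclotomic matrix and `B` the last cyclotomic matrix of the chain.
Averaging the characteristic polynomials of the rank one perturbations `A + 2 cos(2 π φ) E_vv` bounds
the height `∫ log max(|χ_A'|, |χ_B|)` over `[-2, 2]` (arcsine distribution) by `1 + k (2 + 5 log 2)`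
if `log M(A') ≤ 1`, and pairs of integer polynomials of bounded height satisfy Lehmer's bound.
-/

set_option autoImplicit false

namespace Pool.Agent.Results.MP_7ab245_nt.HermitianChains

open Polynomial NumberField

noncomputable section

/-- The polynomial `z ^ n p(z + 1/z)` for a polynomial `p` of degree `n`. -/
def reciprocalOf (p : ℂ[X]) : ℂ[X] :=
  ∑ k ∈ Finset.range (p.natDegree + 1), C (p.coeff k) * (X ^ 2 + 1) ^ k * X ^ (p.natDegree - k)

/-- The Mahler measure of `z ^ n p(z + 1/z)`. -/
def traceMeasure (p : ℂ[X]) : ℝ := (reciprocalOf p).mahlerMeasure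

/-- The principal submatrix with the rows in `U` has an integral characteristic polynomial. -/
def IntegralOn {n : ℕ} (A : Matrix (Fin n) (Fin n) ℂ) (U : Finset (Fin n)) : Prop :=
  ∃ P : ℤ[X], P.map (Int.castRingHom ℂ) =
    (A.submatrix (Subtype.val : U → Fin n) Subtype.val).charpoly

/-- There is a chain of sets of rows from the empty set to the set of all rows, each step adding at
most `k` rows, such that the principal submatrices have integral characteristic polynomials. -/
def HasIntegralChain {n : ℕ} (k : ℕ) (A : Matrix (Fin n) (Fin n) ℂ) : Prop :=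
  ∃ (r : ℕ) (c : ℕ → Finset (Fin n)), c 0 = ∅ ∧ c r = Finset.univ ∧
    (∀ i, i < r → c i ⊆ c (i + 1) ∧ (c (i + 1) \ c i).card ≤ k) ∧
    ∀ i, i ≤ r → IntegralOn A (c i)

/-- The measures of the Hermitian matrices with a chain of integral principal submatrices with steps
of at most `k` rows. -/
def chainMeasures (k : ℕ) : Set ℝ :=
  {x : ℝ | ∃ (n : ℕ) (A : Matrix (Fin n) (Fin n) ℂ), A.IsHermitian ∧ HasIntegralChain k A ∧
    x = traceMeasure A.charpoly}

/-- The conjugate of a matrix over the ring of integers of a number field. -/
def conjugate {K : Type} [Field K] {n : ℕ} (A : Matrix (Fin n) (Fin n) (𝓞 K)) (σ : K →+* ℂ) :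
    Matrix (Fin n) (Fin n) ℂ := A.map (fun x => σ (algebraMap (𝓞 K) K x))

/-- The measures of the norms of the characteristic polynomials of the matrices over the rings of
integers of number fields of degree `k`, all of whose conjugates are Hermitian. -/
def fieldMeasures (k : ℕ) : Set ℝ :=
  {x : ℝ | ∃ (K : Type) (_ : Field K) (_ : NumberField K), Module.finrank ℚ K = k ∧
    ∃ (n : ℕ) (A : Matrix (Fin n) (Fin n) (𝓞 K)), (∀ σ : K →+* ℂ, (conjugate A σ).IsHermitian) ∧
      x = traceMeasure (∏ σ : K →+* ℂ, (conjugate A σ).charpoly)}

theorem result (k : ℕ) :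
    (∃ μ : ℝ, 1 < μ ∧ ∀ x ∈ chainMeasures k, x = 1 ∨ μ ≤ x) ∧
      fieldMeasures k ⊆ chainMeasures k := by
  constructor
  · obtain ⟨μ, hμ, h⟩ := Pool.Agent.W242.IM.fin_chain k
    refine ⟨μ, hμ, ?_⟩
    rintro x ⟨n, A, hA, ⟨r, c, h0, hr, hc, hI⟩, rfl⟩
    exact h n A hA r c h0 hr hc hI
  · rintro x ⟨K, _, _, hk, n, A, hA, rfl⟩
    obtain ⟨B, hB, h3⟩ := Pool.Agent.W242.IM.nf_block k K hk n A hA
    obtain ⟨C, hC, hch, h4⟩ := Pool.Agent.W242.IM.block_chain hB
    exact ⟨n * k, C, hC, hch, congrArg traceMeasure (h4.trans h3).symm⟩

end

end Pool.Agent.Results.MP_7ab245_nt.HermitianChains
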