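import Pool.Agent.W242.IM.Final

/-!
# Lehmer's problem for real-rooted trace polynomials with an interlacing integer polynomial

Let `p` be a monic integer polynomial of degree `n` with only real zeros, and let `q` be an integer
polynomial of degree less than `n` with `q(x) p'(x) > 0` at all zeros `x` of `p` (so `p` has simple
zeros and the zeros of `q` interlace them; the element `q/p'` of the dual of `ℤ[X]/(p)` is totally
positive and its trace is the coefficient `L` of `X ^ (n-1)` in `q`).  Then the Mahler measure of
`z ^ n p(z + 1/z)` is `1` or at least a constant `μ(L) > 1` that depends only on `L`.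

Method.  The numbers `w = q(x) / p'(x)` are the weights of a probability-like measure of mass `L`
on the zeros of `p`; averaging over the rank one perturbations of the diagonal matrix of the zeros by
`c √w √w^T` with `c = 2 cos(2 π φ)` bounds the height of the pair `(p, q)` by
`3 log M + log 2 + 2 log(2 + 2 L)`, and pairs of coprime integer polynomials of bounded height
satisfy Lehmer's bound.
-/

set_option autoImplicit false

namespace Pool.Agent.Results.MP_7ab245_nt.InterlacingCompanion

open Polynomial

noncomputable section

/-- The polynomial `z ^ n p(z + 1/z)` for a polynomial `p` of degree `n`. -/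
def reciprocalOf (p : ℂ[X]) : ℂ[X] :=
  ∑ k ∈ Finset.range (p.natDegree + 1), C (p.coeff k) * (X ^ 2 + 1) ^ k * X ^ (p.natDegree - k)

/-- The Mahler measure of `z ^ n p(z + 1/z)`. -/
def traceMeasure (p : ℂ[X]) : ℝ := (reciprocalOf p).mahlerMeasure

/-- `p` is monic with only real zeros, `q` has smaller degree, and `q p'` is positive at the zeros
of `p`. -/
def Interlaced (p q : ℤ[X]) : Prop :=
  p.Monic ∧ (∀ z : ℂ, (p.map (Int.castRingHom ℂ)).eval z = 0 → z.im = 0) ∧
    q.natDegree < p.natDegree ∧
    ∀ x : ℝ, (p.map (Int.castRingHom ℝ)).eval x = 0 →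
      0 < (q.map (Int.castRingHom ℝ)).eval x * (p.derivative.map (Int.castRingHom ℝ)).eval x

theorem result (L : ℕ) :
    ∃ μ : ℝ, 1 < μ ∧ ∀ p q : ℤ[X], Interlaced p q → q.coeff (p.natDegree - 1) ≤ L →
      traceMeasure (p.map (Int.castRingHom ℂ)) = 1 ∨
        μ ≤ traceMeasure (p.map (Int.castRingHom ℂ)) :=
  Pool.Agent.W242.IM.fin_interl L

end

end Pool.Agent.Results.MP_7ab245_nt.InterlacingCompanion
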