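import Mathlib
import Pool.Agent.H389R3.LP4

/-!
# Lehmer's problem for irreducible polynomials with many zeros in `ℚ_p`

Let `f` be an irreducible integer polynomial of degree `n` with `M(f) > 1`, let `p` be a prime and
let `R` be the number of the zeros of `f` in `ℚ_p`.
Put `h = min (R ^ 2 / n) (R ^ 4 / (n ^ 2 log (2 n)))`. Then

* `M(f) ≥ min (2, exp (h / (4 * 10 ^ 7 * (p - 1) ^ 5)))`;
* in particular `M(f) ≥ exp (1 / (5 * 10 ^ 7 * (p - 1) ^ 5))` as soon as
  `R ^ 2 ≥ n √(log (2 n))`.

So Lehmer's conjecture holds for the irreducible polynomials of degree `n` with at least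
`√n * (log 2n) ^ (1/4)` zeros in `ℚ_p`, for every fixed prime `p`.
The method is an energy inequality with moments for the conjugates of `α, α ^ 2, ..., α ^ m`, and a
lower bound for the `p`-adic discriminant of their minimal polynomials.
-/

set_option autoImplicit false

open Polynomial

namespace Pool.Agent.Results.MP_7ab245_nt.PadicZeros

/-- the number of the zeros of `f` in `ℚ_p`, counted with multiplicity -/
noncomputable def padicZeros (f : ℤ[X]) (p : ℕ) [Fact p.Prime] : ℕ :=
  Multiset.card (f.map (Int.castRingHom ℚ_[p])).roots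

/-- **Lehmer's conjecture for the irreducible polynomials with at least `√n (log 2n) ^ (1/4)` zeros
in `ℚ_p`.** -/
theorem result (f : ℤ[X]) (hf : Irreducible f)
    (hM : 1 < (f.map (Int.castRingHom ℂ)).mahlerMeasure) (p : ℕ) [Fact p.Prime] :
    min 2 (Real.exp (min ((padicZeros f p : ℝ) ^ 2 / f.natDegree)
      ((padicZeros f p : ℝ) ^ 4 / ((f.natDegree : ℝ) ^ 2 * Real.log (2 * f.natDegree))) /
        (4 * 10 ^ 7 * ((p : ℝ) - 1) ^ 5))) ≤ (f.map (Int.castRingHom ℂ)).mahlerMeasure ∧
    ((f.natDegree : ℝ) * Real.sqrt (Real.log (2 * f.natDegree)) ≤ (padicZeros f p : ℝ) ^ 2 →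
      Real.exp (1 / (5 * 10 ^ 7 * ((p : ℝ) - 1) ^ 5)) ≤
        (f.map (Int.castRingHom ℂ)).mahlerMeasure) :=
  ⟨Pool.Agent.H389R3.LP.final_p f hf hM p, fun hR => Pool.Agent.H389R3.LP.lehmer_p f hf hM p hR⟩

end Pool.Agent.Results.MP_7ab245_nt.PadicZeros
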