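import Mathlib
import Pool.Agent.H389R3.LP4

/-!
# Lehmer's problem for irreducible polynomials with many zeros on few rational lines

Let `f` be an irreducible integer polynomial of degree `n` with `M(f) > 1`, let `q ≥ 1` and let `R`
be the number of the complex zeros `z` of `f` for which `z ^ q` is real (`q = 1`: the number of real
zeros; in general: the zeros on the `q` lines through `0` whose angles are multiples of `π / q`).
Put `h = min (R ^ 2 / n) (R ^ 4 / (n ^ 2 log (2 n)))`. Then

* `M(f) ≥ min (2, exp (h / (4 * 10 ^ 7 * q ^ 5)))`;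
* in particular `M(f) ≥ exp (1 / (5 * 10 ^ 7 * q ^ 5))` as soon as `R ^ 2 ≥ n √(log (2 n))`.

So Lehmer's conjecture holds for the irreducible polynomials of degree `n` with at least
`√n * (log 2n) ^ (1/4)` zeros whose `q`-th power is real, for every fixed `q`.
The method is an energy inequality with moments for the conjugates of `α, α ^ 2, ..., α ^ m`.
-/

set_option autoImplicit false

open Polynomial

namespace Pool.Agent.Results.MP_7ab245_nt.RealPowerZeros

open Classical in
/-- the number of the complex zeros `z` of `f`, counted with multiplicity, for which `z ^ q` is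
real -/
noncomputable def realPowerZeros (f : ℤ[X]) (q : ℕ) : ℕ :=
  Multiset.card ((f.map (Int.castRingHom ℂ)).roots.filter fun z => (z ^ q).im = 0)

lemma eq_lineRoots (f : ℤ[X]) (q : ℕ) :
    Pool.Agent.H389R3.LR.lineRoots f q = realPowerZeros f q := by
  unfold Pool.Agent.H389R3.LR.lineRoots realPowerZeros
  congr!

open Pool.Agent.H389R3.LR Pool.Agent.H389R3.LP in
lemma general (f : ℤ[X]) (hf : Irreducible f)
    (hM : 1 < (f.map (Int.castRingHom ℂ)).mahlerMeasure) (q : ℕ) (hq : 1 ≤ q) :
    min 2 (Real.exp (min ((lineRoots f q : ℝ) ^ 2 / f.natDegree)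
      ((lineRoots f q : ℝ) ^ 4 / ((f.natDegree : ℝ) ^ 2 * Real.log (2 * f.natDegree))) /
        (4 * 10 ^ 7 * (q : ℝ) ^ 5))) ≤ (f.map (Int.castRingHom ℂ)).mahlerMeasure := by
  rcases le_or_gt 2 (f.map (Int.castRingHom ℂ)).mahlerMeasure with h2 | h2
  · exact (min_le_left _ _).trans h2
  refine (min_le_right _ _).trans ?_
  obtain ⟨hlc, -⟩ := units_of_lt_two f hf hM h2
  rcases (abs_eq (zero_le_one' ℤ)).mp hlc with h3 | h3
  · exact final f hf h3 hM q hq
  · have hMneg := MM_neg' f
    have hpr : lineRoots (-f) q = lineRoots f q := by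
      unfold lineRoots
      rw [Polynomial.map_neg, Polynomial.roots_neg]
    have := final (-f) ((Associated.irreducible_iff (Associated.neg_left (Associated.refl f))).mpr hf)
      (by rw [Monic, leadingCoeff_neg, h3]; rfl) (by rw [hMneg]; exact hM) q hq
    rw [hMneg, hpr, natDegree_neg] at this
    exact this

/-- **Lehmer's conjecture for the irreducible polynomials with at least `√n (log 2n) ^ (1/4)` zeros
whose `q`-th power is real.** -/
theorem result (f : ℤ[X]) (hf : Irreducible f)
    (hM : 1 < (f.map (Int.castRingHom ℂ)).mahlerMeasure) (q : ℕ) (hq : 1 ≤ q) :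
    min 2 (Real.exp (min ((realPowerZeros f q : ℝ) ^ 2 / f.natDegree)
      ((realPowerZeros f q : ℝ) ^ 4 / ((f.natDegree : ℝ) ^ 2 * Real.log (2 * f.natDegree))) /
        (4 * 10 ^ 7 * (q : ℝ) ^ 5))) ≤ (f.map (Int.castRingHom ℂ)).mahlerMeasure ∧
    ((f.natDegree : ℝ) * Real.sqrt (Real.log (2 * f.natDegree)) ≤ (realPowerZeros f q : ℝ) ^ 2 →
      Real.exp (1 / (5 * 10 ^ 7 * (q : ℝ) ^ 5)) ≤ (f.map (Int.castRingHom ℂ)).mahlerMeasure) := by
  rw [← eq_lineRoots]
  exact ⟨general f hf hM q hq, fun hR => Pool.Agent.H389R3.LR.lehmer_lines f hf hM q hq hR⟩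

end Pool.Agent.Results.MP_7ab245_nt.RealPowerZeros
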